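import Pool.Agent.TH606.GC.Main

/-!
# The variance of the Möbius function in short intervals: almost all signs, almost all subsets of the window

`M A n = ∑_{h ∈ A} μ(n + h)`; for `A = {1, ..., H}` this is the sum of `μ` over the window `n + 1, ..., n + H`, and the
question (Good and Churchhouse) is whether its mean square is asymptotic to `H / ζ(2)`, `1 / ζ(2) = 6 / π ^ 2`.

* For all but `ε 2 ^ H` of the choices of signs the mean square of `∑_{h ≤ H} ± μ(n + h)` is
  `(6 / π ^ 2 + O(ε)) H`: the asymptotic formula of the question holds, for the whole window, for almost all signs.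
* For all but `ε 2 ^ H` of the subsets `A` of the window the mean square `V(A)` of `M A` is determined by that of the
  whole window: `4 V(A) = V({1, ..., H}) + 6 / π ^ 2 H + O(ε (V({1, ..., H}) + H))`.
* So the asymptotic formula of the question is equivalent to the formula `V(A) ~ 6 / π ^ 2 |A|` for almost all subsets
  `A` of the window.

Here `H → ∞` arbitrarily slowly or `H` is as large as `X`.
-/

set_option autoImplicit false

open Finset

namespace Pool.Agent.Results.MP_0575cc_nt.RandomSignsAndSubsets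

/-- `μ(n + h)` summed over `h ∈ A` -/
noncomputable def M (A : Finset ℕ) (n : ℕ) : ℝ := ∑ h ∈ A, ((ArithmeticFunction.moebius (n + h) : ℤ) : ℝ)

/-- `± μ(n + h)` summed over the window `1 ≤ h ≤ H`, with sign `+` for `h ∈ A` and `-` for the other `h` -/
noncomputable def Signed (H : ℕ) (A : Finset ℕ) (n : ℕ) : ℝ :=
  ∑ h ∈ Icc 1 H, (if h ∈ A then 1 else -1) * ((ArithmeticFunction.moebius (n + h) : ℤ) : ℝ)

/-- the mean square of `f` over `Y < n ≤ X` -/
noncomputable def meanSquare (Y X : ℕ) (f : ℕ → ℝ) : ℝ := (∑ n ∈ Ioc Y X, f n ^ 2) / ((X : ℝ) - Y)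

/-- All but at most `ε 2 ^ H` of the `2 ^ H` subsets `A` of `{1, ..., H}` have the property `P`. -/
def AlmostAll (ε : ℝ) (H : ℕ) (P : Finset ℕ → Prop) : Prop :=
  ({A : Finset ℕ | A ⊆ Icc 1 H ∧ ¬ P A}.ncard : ℝ) ≤ ε * 2 ^ H

/-- **Almost all signs and almost all subsets of the window.** The first part: the mean square with signs and the mean
square over a subset, for all but `ε 2 ^ H` of the subsets. The second part: along any sequence of windows with
`H → ∞`, the asymptotic formula for the whole window is equivalent to that for almost all subsets. -/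
theorem result (K : ℝ) :
    (∀ ε : ℝ, 0 < ε → ∃ H₀ : ℕ, ∀ H Y X : ℕ, H₀ ≤ H → H ≤ X → Y < X → (X : ℝ) ≤ K * (X - Y) →
      AlmostAll ε H (fun A => |meanSquare Y X (Signed H A) - 6 / Real.pi ^ 2 * H| ≤ ε * H) ∧
      AlmostAll ε H (fun A => |4 * meanSquare Y X (M A) - (meanSquare Y X (M (Icc 1 H)) + 6 / Real.pi ^ 2 * H)| ≤
        ε * (meanSquare Y X (M (Icc 1 H)) + H))) ∧
    (∀ H Y X : ℕ → ℕ, Filter.Tendsto H Filter.atTop Filter.atTop →
      (∀ k, H k ≤ X k ∧ Y k < X k ∧ (X k : ℝ) ≤ K * ((X k : ℝ) - Y k)) →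
      (Filter.Tendsto (fun k => meanSquare (Y k) (X k) (M (Icc 1 (H k))) / H k) Filter.atTop (nhds (6 / Real.pi ^ 2)) ↔
        ∀ ε : ℝ, 0 < ε → ∀ᶠ k in Filter.atTop, AlmostAll ε (H k)
          (fun A => |meanSquare (Y k) (X k) (M A) - 6 / Real.pi ^ 2 * A.card| ≤ ε * H k))) := by
  have hS : ∀ Y X A, meanSquare Y X (M A) = Pool.Agent.TH606.GC.SS Y X A / ((X : ℝ) - Y) := fun _ _ _ => rfl
  have hQ : ∀ H Y X A, meanSquare Y X (Signed H A) = Pool.Agent.TH606.GC.QQ H Y X A / ((X : ℝ) - Y) := fun _ _ _ _ => rfl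
  have hc : 6 / Real.pi ^ 2 = Pool.Agent.TH893.GS.c0 := rfl
  have hA : ∀ (ε : ℝ) (H : ℕ) (P : Finset ℕ → Prop), AlmostAll ε H P ↔ Pool.Agent.TH606.GC.cnt H (fun A => ¬ P A) ≤ ε * 2 ^ H := by
    intro ε H P
    unfold AlmostAll
    rw [← Pool.Agent.TH606.GC.cnt_eq]
  have hc0 := Pool.Agent.TH606.GC.c0_pos
  have hc1 := Pool.Agent.TH606.GC.c0_le
  refine ⟨fun ε hε => ?_, fun H Y X hH hHX => ?_⟩
  · obtain ⟨H₀, h0⟩ := Pool.Agent.TH606.GC.main2 K hε
    refine ⟨H₀, fun H Y X hH hHX hYX hXK => ?_⟩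
    rw [hA, hA]
    simp only [hS, hQ, hc]
    exact h0 H Y X hH hHX hYX hXK
  · simp only [hA, hS, hc]
    have hpos : ∀ᶠ k in Filter.atTop, 0 < H k := by
      filter_upwards [hH.eventually_ge_atTop 1] with k hk
      omega
    -- for each tolerance the two exceptional sets are small
    have hgood : ∀ e : ℝ, 0 < e → ∀ᶠ k in Filter.atTop,
        Pool.Agent.TH606.GC.cnt (H k) (fun A => ¬ (|4 * (Pool.Agent.TH606.GC.SS (Y k) (X k) A / ((X k : ℝ) - Y k)) -
          (Pool.Agent.TH606.GC.SS (Y k) (X k) (Icc 1 (H k)) / ((X k : ℝ) - Y k) + Pool.Agent.TH893.GS.c0 * H k)| ≤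
          e * (Pool.Agent.TH606.GC.SS (Y k) (X k) (Icc 1 (H k)) / ((X k : ℝ) - Y k) + H k) ∧
          |(A.card : ℝ) - H k / 2| ≤ e * H k)) ≤ 2 * e * 2 ^ (H k) := by
      intro e he
      obtain ⟨H₁, h1⟩ := Pool.Agent.TH606.GC.main2 K he
      obtain ⟨H₂, h2⟩ := Pool.Agent.TH606.GC.conc he
      filter_upwards [hH.eventually_ge_atTop (H₁ + H₂)] with k hk
      have h3 := (h1 (H k) (Y k) (X k) (by omega) (hHX k).1 (hHX k).2.1 (hHX k).2.2).2
      have h4 := h2 (H k) (by omega)
      refine (Pool.Agent.TH606.GC.cnt_or (fun A _ hPA => ?_)).trans ((add_le_add h3 h4).trans (le_of_eq (by ring)))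
      exact not_and_or.1 hPA
    have hD : ∀ k, (0 : ℝ) < (X k : ℝ) - Y k := by
      intro k
      have : (Y k : ℝ) < X k := by exact_mod_cast (hHX k).2.1
      linarith
    constructor
    · intro hlim ε hε
      obtain ⟨e, he⟩ : ∃ e : ℝ, e = min (ε / 4) 1 := ⟨_, rfl⟩
      have he0 : 0 < e := by rw [he]; exact lt_min (by positivity) one_pos
      have he1 : e ≤ 1 := by rw [he]; exact min_le_right _ _
      have he2 : e ≤ ε / 4 := by rw [he]; exact min_le_left _ _
      rw [Metric.tendsto_atTop'] at hlim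
      obtain ⟨k₀, hk₀⟩ := hlim e he0
      filter_upwards [hgood e he0, hpos, Filter.eventually_gt_atTop k₀] with k h1 h2 h3
      have h4 := (hk₀ k h3).le
      rw [Real.dist_eq] at h4
      have hHk : (0 : ℝ) < H k := by exact_mod_cast h2
      refine (Pool.Agent.TH606.GC.cnt_mono ?_).trans (h1.trans (mul_le_mul_of_nonneg_right (by linarith) (by positivity)))
      intro A _ hA2 hcon
      apply hA2
      have h5 := Pool.Agent.TH606.GC.step1 hc0 hc1 hHk he0 he1 hcon.1 hcon.2 h4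
      refine h5.trans ?_
      have : 4 * e ≤ ε := by linarith
      exact mul_le_mul_of_nonneg_right this hHk.le
    · intro hall
      rw [Metric.tendsto_nhds]
      intro ε hε
      obtain ⟨e, he⟩ : ∃ e : ℝ, e = min (ε / 40) (1 / 4) := ⟨_, rfl⟩
      have he0 : 0 < e := by rw [he]; exact lt_min (by positivity) (by norm_num)
      have he1 : e ≤ 1 / 4 := by rw [he]; exact min_le_right _ _
      have he2 : e ≤ ε / 40 := by rw [he]; exact min_le_left _ _
      filter_upwards [hgood e he0, hpos, hall e he0] with k h1 h2 h3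
      have hHk : (0 : ℝ) < H k := by exact_mod_cast h2
      have h2H : (0 : ℝ) < 2 ^ (H k) := by positivity
      obtain ⟨A, _, hA1, hA2⟩ := Pool.Agent.TH606.GC.exists_good (H := H k)
        (P := fun A => (|4 * (Pool.Agent.TH606.GC.SS (Y k) (X k) A / ((X k : ℝ) - Y k)) -
          (Pool.Agent.TH606.GC.SS (Y k) (X k) (Icc 1 (H k)) / ((X k : ℝ) - Y k) + Pool.Agent.TH893.GS.c0 * H k)| ≤
          e * (Pool.Agent.TH606.GC.SS (Y k) (X k) (Icc 1 (H k)) / ((X k : ℝ) - Y k) + H k) ∧
          |(A.card : ℝ) - H k / 2| ≤ e * H k) ∧ |Pool.Agent.TH606.GC.SS (Y k) (X k) A / ((X k : ℝ) - Y k) -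
            Pool.Agent.TH893.GS.c0 * A.card| ≤ e * H k) (by
          have h4 := Pool.Agent.TH606.GC.cnt_or (H := H k)
            (P := fun A => ¬ ((|4 * (Pool.Agent.TH606.GC.SS (Y k) (X k) A / ((X k : ℝ) - Y k)) -
              (Pool.Agent.TH606.GC.SS (Y k) (X k) (Icc 1 (H k)) / ((X k : ℝ) - Y k) + Pool.Agent.TH893.GS.c0 * H k)| ≤
              e * (Pool.Agent.TH606.GC.SS (Y k) (X k) (Icc 1 (H k)) / ((X k : ℝ) - Y k) + H k) ∧
              |(A.card : ℝ) - H k / 2| ≤ e * H k) ∧ |Pool.Agent.TH606.GC.SS (Y k) (X k) A / ((X k : ℝ) - Y k) -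
              Pool.Agent.TH893.GS.c0 * A.card| ≤ e * H k)) (fun A _ hPA => not_and_or.1 hPA)
          nlinarith)
      have hv : 0 ≤ Pool.Agent.TH606.GC.SS (Y k) (X k) (Icc 1 (H k)) / ((X k : ℝ) - Y k) :=
        div_nonneg (Pool.Agent.TH606.GC.SS_nonneg _ _ _) (hD k).le
      have h5 := Pool.Agent.TH606.GC.step2 hc0 hc1 hHk hv he0 (by linarith) hA1.1 hA1.2 hA2
      rw [Real.dist_eq]
      have : 20 * e < ε := by linarith
      linarith

end Pool.Agent.Results.MP_0575cc_nt.RandomSignsAndSubsets
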